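import Pool.Agent.H20.Iso3

set_option autoImplicit false

open Set MeasureTheory Metric Real Pool.Agent.H20.Iso
open scoped Pointwise

namespace Pool.Agent.Results.MP_9f0ab0_gt.Counter

lemma exists_k (t : ℕ) : ∃ k : ℕ, 4 ≤ 2 ^ k ∧
    ((2 ^ k : ℕ) : ℝ) ^ (t + 2) * (exp 1 / 4) ^ (2 ^ k) ≤ 1 / 100000 := by
  have h : |exp 1 / 4| < 1 := by
    rw [abs_of_pos (by positivity)]; linarith [exp_one_lt_d9]
  have := (tendsto_pow_const_mul_const_pow_of_abs_lt_one (t + 2) h).eventually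
    (ge_mem_nhds (show (0 : ℝ) < 1 / 100000 by norm_num))
  obtain ⟨n, hn⟩ := Filter.eventually_atTop.1 this
  have h2 : n + 4 < 2 ^ (n + 4) := Nat.lt_two_pow_self
  exact ⟨n + 4, by omega, hn _ (by omega)⟩

theorem result : ∃ t : ℕ, 0 < t ∧ ∀ t' : ℕ, 0 < t' → ∃ d : ℕ, 2 ≤ d ∧ ∃ P Q : Set (V d),
    IsPolytope (d ^ t) P ∧ IsPolytope (d ^ t) Q ∧ P = -P ∧ Q = -Q ∧
    Isotropic P ∧ Isotropic Q ∧
    (∀ θ : V d, ‖θ‖ = 1 → |relSec P θ - relSec Q θ| ≤ (d : ℝ) ^ (-(t' : ℤ))) ∧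
    1 / 10 < hausdorffDist P Q := by
  refine ⟨2, two_pos, fun t _ => ?_⟩
  obtain ⟨k, k4, hk⟩ := exists_k t
  obtain ⟨v, h1, h2, h3, h4, h5⟩ := exists_fam k
  have hc : (Fintype.card ((Fin k → ZMod 2) × ZMod 2)) = 2 * 2 ^ k := by simp [mul_comm]
  generalize 2 ^ k = d at *
  set z : Fin d := ⟨0, by omega⟩
  have d4 : (4 : ℝ) ≤ d := by exact_mod_cast k4
  have d0 : (0 : ℝ) < d := by linarith
  have sq1 : √(d : ℝ) ≤ d := by rw [sqrt_le_left d0.le]; nlinarith
  set r := √(d : ℝ) / 8 with hr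
  set Q := cut v r with hQ
  set E := exp (π * d / 16) with hE
  set N : ℝ := 2 ^ d with hN
  have N0 : 0 < N := by positivity
  set η := 2 * d * E / (N * N) with hη
  have E1 : 1 ≤ E := one_le_exp (by positivity)
  have er : exp (π * r ^ 2 / (1 / 2) ^ 2) = E := by
    rw [hr, div_pow, sq_sqrt d0.le]; congr 1; ring
  have hh : ((1 : ℝ) / 2) ^ d = 1 / N := by rw [div_pow, one_pow]
  have η0 : 0 ≤ η := by positivity
  have key : E ^ 4 * η * d ^ (t + 1) ≤ 1 / 50000 := by
    have a1 : E ^ 5 ≤ exp 1 ^ d := by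
      rw [hE, ← exp_nat_mul, ← exp_nat_mul, exp_le_exp]
      push_cast; nlinarith [pi_lt_d2]
    have a2 : N * N = 4 ^ d := by rw [hN, ← mul_pow]; norm_num
    rw [div_pow] at hk
    calc _ = 2 * (d ^ (t + 2) * (E ^ 5 / 4 ^ d)) := by rw [hη, a2]; ring
      _ ≤ 2 * (d ^ (t + 2) * (exp 1 ^ d / 4 ^ d)) := by gcongr
      _ ≤ _ := by linarith
  have E4 : 1 ≤ E ^ 4 := one_le_pow₀ E1
  have dt : (1 : ℝ) ≤ d ^ t := one_le_pow₀ (by linarith)
  have k1 : η * d ≤ 1 / 50000 := by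
    refine le_trans ?_ key
    calc η * d = 1 * η * (1 * d) := by ring
      _ ≤ E ^ 4 * η * (d ^ t * d) := by gcongr
      _ = _ := by ring
  have η1 : η ≤ 1 / 32 := by nlinarith
  have cq := cut_cpt v r
  have hsub : Q ⊆ cube d := fun x hx => hx.1
  have hb : ball 0 (1 / 2) ⊆ Q := ball_cut v h1 (by linarith)
  have vq1 : volume.real Q ≤ N := by
    rw [hN, ← vol_cube]; exact measureReal_mono hsub (cube_cpt d).measure_lt_top.ne
  have vq2 : N ≤ volume.real Q + η * N := by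
    have := cover_le volume (fun a => closedBall (WithLp.toLp 2 (v a) : V d) r) (E * (1 / N))
      cq.measure_lt_top.ne (fun a => measure_closedBall_lt_top.ne) (fun a => by
        have := ball_le (WithLp.toLp 2 (v a) : V d) r (1 / 2) (by norm_num)
        rwa [er, finrank_euclideanSpace_fin, hh] at this) (cover v h1 r)
    rw [vol_cube, hc] at this
    convert this using 2
    rw [hη]; push_cast; field_simp
  obtain ⟨m1, m2, m3⟩ := mom_cmp z cq hsub
  obtain ⟨-, m4, -⟩ := mom_cmp z (cube_cpt d) subset_rfl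
  have m5 := mom_cube z
  rw [vol_cube] at m4
  set MC := ∫ x in cube d, x z * x z
  set MQ := ∫ x in Q, x z * x z
  have u1 : 1 - η ≤ volume.real Q / N := by rw [le_div_iff₀ N0]; linarith
  have u2 : volume.real Q / N ≤ 1 := (div_le_one N0).2 vq1
  obtain ⟨s1, s2, s3⟩ := num1 (p := MC / N) (q := MQ / N) η0 η1 u1 u2
    (by rw [le_div_iff₀ N0]; linarith) ((div_le_one N0).2 m4)
    (by rw [le_div_iff₀ N0, sub_mul, div_mul_cancel₀ _ N0.ne']; linarith)
    (by gcongr) (by gcongr)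
  rw [one_div_div] at s1 s3
  rw [div_div_div_cancel_right₀ N0.ne'] at s2 s3
  have MC0 : 0 < MC := by linarith
  have MQ0 : 0 < MQ := by nlinarith
  have VQ0 : 0 < volume.real Q := by linarith
  obtain ⟨y1, y2, y3⟩ := cut_sym v v r z h1 h2 h3 h4 (h5 z)
  obtain ⟨x1, x2, x3⟩ := cut_sym v (fun (_ : Empty) (_ : Fin d) => (0 : ℝ)) r z h1
    (fun a => a.elim) (fun a => a.elim) h4
    (fun i => (h5 z i).imp fun σ h => ⟨h.1, h.2.1, fun a => a.elim⟩)
  rw [cut_empty] at x1 x2 x3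
  have i1 := iso_of_sym z (by rw [vol_cube]; exact N0) MC0 x1 x2 x3
  have i2 := iso_of_sym z VQ0 MQ0 y1 y2 y3
  rw [vol_cube] at i1
  set s := √(N / MC)
  set s' := √(volume.real Q / MQ)
  have ng : ∀ (K : Set (V d)) (c : ℝ), (∀ x, -x ∈ K ↔ x ∈ K) → c • K = -(c • K) :=
    fun K c h => by
      have : -K = K := by ext x; exact h x
      rw [← smul_set_neg, this]
  refine ⟨d, by omega, s • cube d, s' • Q, ?_, ?_, ng _ _ x1, ng _ _ y1, i1, i2,
    fun θ hθ => ?_, ?_⟩
  · exact poly_of _ _ (cube_cpt d) (hb.trans hsub) mem_cube_iff (by simp; nlinarith) (by linarith)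
  · refine poly_of (ι := (Fin d × Bool) ⊕ ((Fin k → ZMod 2) × ZMod 2))
      (Sum.elim (fun l => EuclideanSpace.single l.1 (if l.2 then (1 : ℝ) else -1))
        fun a => WithLp.toLp 2 (v a)) (Sum.elim (fun _ => 1) fun _ => d - r) cq hb
      (fun x => ?_) (by rw [Fintype.card_sum, hc]; simp; nlinarith) (by linarith)
    rw [Sum.forall]
    refine and_congr (mem_cube_iff x) (forall_congr' fun a => ?_)
    simp [PiLp.inner_apply, mul_comm]
  · rw [relSec_smul _ (by linarith) hθ, relSec_smul _ (by linarith) hθ, vol_cube]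
    obtain ⟨b1, b2⟩ := sec_ball hθ 0 √d 2 two_pos
    have fc : (volume : Measure (ℝ ∙ θ)ᗮ) {y | (y : V d) ∈ cube d} ≠ ⊤ :=
      measure_ne_top_of_subset (fun y hy => cube_sub d hy) b1
    have c1 : sec (cube d) θ ≤ sec (closedBall 0 √d) θ :=
      measureReal_mono (fun y hy => cube_sub d hy) b1
    have c2 : sec Q θ ≤ sec (cube d) θ := measureReal_mono (fun y hy => hsub hy) fc
    have c0 : 0 ≤ sec Q θ := measureReal_nonneg
    have c3 : sec (cube d) θ ≤ sec Q θ + 2 * η * N := by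
      have := cover_le (volume : Measure (ℝ ∙ θ)ᗮ) (K := {y | (y : V d) ∈ Q})
        (C := {y | (y : V d) ∈ cube d})
        (fun a => {y | (y : V d) ∈ closedBall (WithLp.toLp 2 (v a) : V d) r}) (2 * (E * (1 / N)))
        (measure_ne_top_of_subset (fun y hy => hsub hy) fc)
        (fun a => (sec_ball hθ _ r 1 one_pos).1) (fun a => by
          have := (sec_ball hθ (WithLp.toLp 2 (v a) : V d) r (1 / 2) (by norm_num)).2
          rw [er, hh, sec] at this
          linarith) (fun y hy => by simpa using cover v h1 r hy)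
      have e : 2 * η * N = ((2 * d : ℕ) : ℝ) * (2 * (E * (1 / N))) := by
        rw [hη]; push_cast; field_simp
      rw [hc, ← e] at this
      exact this
    have e4 : exp (π * √d ^ 2 / 2 ^ 2) = E ^ 4 := by
      rw [sq_sqrt d0.le, hE, ← exp_nat_mul]; congr 1; push_cast; ring
    rw [e4] at b2
    have := num2 (a := sec (cube d) θ / N) (b := sec Q θ / N) (B := E ^ 4) η0 η1 u1 u2 s1 s2 s3
      (by positivity) (by gcongr)
      (by rw [div_le_iff₀ N0, add_mul, div_mul_cancel₀ _ N0.ne']; exact c3)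
      (by rw [div_le_iff₀ N0]; linarith) E4
    have e5 : sec Q θ / N / (volume.real Q / N * s') = sec Q θ / (volume.real Q * s') := by
      field_simp
    rw [e5, div_div] at this
    refine this.trans ?_
    rw [zpow_neg, zpow_natCast, ← one_div, le_div_iff₀ (by positivity)]
    have : E ^ 4 * η * d ^ t * 1 ≤ E ^ 4 * η * d ^ t * d := by gcongr; linarith
    rw [pow_succ (d : ℝ), ← mul_assoc] at key
    linarith
  · have := haus v h1 (0, 0) (by omega) s1 s2 (δ := 256 * η * d) (by gcongr)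
      ⟨0, hb (by simp)⟩
    linarith

end Pool.Agent.Results.MP_9f0ab0_gt.Counter
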